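import Pool.Agent.R340.CF.Link
import Pool.Agent.R927.FW5

set_option autoImplicit false

open Finset Pool.Agent.W432.PC Pool.Agent.TH571.PCV Pool.Agent.Y227.SS Pool.Agent.R927
open Pool.Agent.R340.CF

/-!
# Factorial cancellation: Okubo systems and systems with few nontrivial exponents

For a system `y' = A y` let `A_0 = 1` and `A_{m+1} = A_m' + A_m A`, so that the solutions satisfy
`y^(m) = A_m y`, and let `Δ` be the product of the `z - α j` for the finite singular points `α j`. It is
shown that there is no nonzero `N` such that all the `(N Δ)^m A_m / m!` have entries in `R[z]`, and so the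
implication of the question holds, for all Okubo systems `(z - T) y' = M y` of rank `r > 1` over a finitely
generated domain `R` of characteristic zero, with rational exponents of denominators at least `28 r ^ 3`,
if the system is irreducible or the local exponents and the exponents at infinity do not agree modulo `ℤ`
up to their order; the rank, the number of singular points and the number of accessory parameters are
arbitrary. The same holds for the irreducible Fuchsian systems such that after a twist by a system of
rank one at most `r` of the exponents away from one singular point are not integers, under one of several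
conditions (`Unbalanced`), or if the exponents do not satisfy the majorization inequalities `MajorAll`.

Proof. If `(N Δ)^p A_p / p!` has entries in `R[z]`, then the `p`-curvature vanishes at all closed points of
characteristic `p` where `N` is not zero. (The matrix `A_p` modulo `p` is, up to transposition, the
`p`-curvature of the dual system.) But by a result of the module `Pool.Agent.R927.FW5` the `p`-curvature is
nonzero at all closed points of `Spec R[1 / g]` of large characteristic in some residue class.
-/

namespace Pool.Agent.Results.MP_c83bfd_ag.OkuboMajorization

universe u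

/-- Let `R` be a domain of characteristic zero, of finite type over `ℤ`, and let `α 0, …, α (n - 1)` be
elements of `R` with invertible differences, and let `r > 1`. For a system `y' = A y`,
`A = ∑ j, A j / (z - α j)`, let `A_0 = 1`, `A_{m+1} = A_m' + A_m A`, and `Δ = ∏ j, (z - α j)`. We consider the assertion

(*) there is a residue class modulo `B`, prime to `B`, such that for every nonzero `N` in `R` and all the
large primes `p` in this class some entry of `(N Δ)^p A_p / p!` is not in `R[z]` (`NoCancel α A B`).

First part. Let `(z - T) y' = M y` be an Okubo system of rank `r`, where `T` is the diagonal matrix with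
entries `α (c l)` and `M` is any matrix over `R`. Let the `μ l` with `c l = j` be the eigenvalues of the
diagonal block of `M` (rows and columns `l` with `c l = j`), for all `j`, and let `ρ l` be the eigenvalues
of `M`. Let all the `μ l` and `ρ l` be rational with denominators at least `28 r ^ 3`. Assume that the
system is irreducible over every field which contains `R`, or that the `μ l` and the `ρ l` do not agree
modulo `ℤ` up to their order (for some `q` the numbers of the `μ l` and of the `ρ l` which differ from `q`
by an integer are not equal). Then (*) holds for every common denominator `B` of the `μ l` and `ρ l`, and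
there is no nonzero `N` in `R` such that all the `(N Δ)^m A_m / m!`, `m ≥ 1`, have entries in `R[z]`.

Second part. Let `y' = A y` be a system of rank `r`, irreducible over every field which contains `R`, with
rational exponents `lam j l` (eigenvalues of `A j`) and `phi l` (eigenvalues of `∑ j, A j`). Let `ε x` be
rational numbers with sum zero (for the finite singular points `x = some j` and for infinity,
`x = none`), and let `D x l` be the numbers `lam j l - ε (some j)` for `x = some j` and `-phi l - ε none`
for `x = none`. Let `x₀` be a singular point such that at most `r` of the `D x l` with `x ≠ x₀` are not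
integers.

* `MajorAll x₀ D` holds (for every common denominator `q` of the `D x l` and every `u` prime to `q` the
fractional parts of the `-u D x₀ k` strictly majorize those of the `u D x l`, `x ≠ x₀`), or (*) holds
for every common denominator `B` of the exponents.

* If `Unbalanced x₀ D` holds, the second alternative holds and there is no nonzero `N` in `R` such that all the `(N Δ)^m A_m / m!`, `m ≥ 1`, have entries in `R[z]`. `Unbalanced x₀ D`
means: less than `r` of the `D x l` with `x ≠ x₀` are not integers; or some `D x₀ k` is an integer; or the
sum of `1 - gam (D x l)` over all `x ≠ x₀` and `l` is at most the sum of `1 - gam (D x₀ k)` over all `k`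
plus `1 / (14 r ^ 2)`; or all the `D x l` (for all `x` and `l`) which are not integers have denominators
at least `28 r ^ 3`; or some `D x l` with `x ≠ x₀` is not an integer and has a denominator at least as
large as all the `D x₀ k`; or all the `D x l` are in `(1 / N) ℤ` for some prime `N`. -/
theorem result {R : Type u} [CommRing R] [IsDomain R] [CharZero R] [Algebra.FiniteType ℤ R]
    {n r : ℕ} (hr : 1 < r) (α : Fin n → R) (hα : ∀ i j, i ≠ j → IsUnit (α i - α j)) :
    (∀ (c : Fin r → Fin n) (M : Matrix (Fin r) (Fin r) R) (μ ρ : Fin r → ℚ),
      (∀ j, HasExponents (okubo c M j) (fun l => if c l = j then μ l else 0)) →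
      HasExponents M ρ → (∀ l, 28 * r ^ 3 ≤ (μ l).den) → (∀ l, 28 * r ^ 3 ≤ (ρ l).den) →
      (AbsIrreducible α (okubo c M) ∨ ∃ q : ℚ,
        (univ.filter fun l => (μ l - q).den = 1).card ≠
          (univ.filter fun l => (ρ l - q).den = 1).card) →
      (∀ B : ℕ, 0 < B → (∀ l, ∃ m : ℤ, (B : ℚ) * μ l = m) → (∀ l, ∃ m : ℤ, (B : ℚ) * ρ l = m) →
        NoCancel α (okubo c M) B) ∧ ¬ Cancels α (okubo c M)) ∧
    (∀ (A : Fin n → Matrix (Fin r) (Fin r) R) (lam : Fin n → Fin r → ℚ) (phi : Fin r → ℚ),
      (∀ j, HasExponents (A j) (lam j)) → HasExponents (∑ j, A j) phi → AbsIrreducible α A →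
      ∀ (x₀ : Option (Fin n)) (ε : Option (Fin n) → ℚ) (D : Option (Fin n) → Fin r → ℚ),
        IsTwist lam phi ε D → nonintAway x₀ D ≤ r →
        ((∀ B, ExpDen lam phi B → NoCancel α A B) ∨ MajorAll x₀ D) ∧
        (Unbalanced x₀ D → (∀ B, ExpDen lam phi B → NoCancel α A B) ∧ ¬ Cancels α A)) := by
  refine ⟨?_, ?_⟩
  · intro c M μ ρ hμ hρ h1 h2 h
    have h3 := fun B hB h4 h5 => noCancel_of_bad (okubo_large hr α hα c M μ ρ hμ hρ h1 h2 h B hB h4 h5)
    refine ⟨h3, ?_⟩
    obtain ⟨B, hB, hBμ, hBρ⟩ := exists_expDen (fun (_ : Fin 1) l => μ l) ρ
    exact (h3 B hB (hBμ 0) hBρ).not_cancels hB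
  · intro A lam phi hlam hphi hirr x₀ ε D hD hfew
    refine ⟨(sys_major_all hr α hα A lam phi hlam hphi hirr x₀ hD hfew).imp_left
      fun h B hB => noCancel_of_bad (h B hB), fun h => ?_⟩
    have h1 : ∀ B, ExpDen lam phi B → NoCancel α A B := fun B hB =>
      noCancel_of_bad (sys_unbalanced hr α hα A lam phi hlam hphi hirr x₀ hD hfew h B hB)
    obtain ⟨B, hB⟩ := exists_expDen lam phi
    exact ⟨h1, (h1 B hB).not_cancels hB.1⟩

end Pool.Agent.Results.MP_c83bfd_ag.OkuboMajorization
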